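import Pool.Agent.Lib.MP_2f3d14_co.Grid

/-!
# A grid class `G` with `Q(G_5)` Schur-positive and `Q(G_4)` not symmetric

The matrix is the signed permutation matrix of the permutation `1 5 4 3 2 6` with the signs
`- - + + - -`.
-/

namespace Pool.Agent.Results.MP_2f3d14_co.Counterexample

open Pool.Agent.Lib.MP_2f3d14_co Finset

/-- The permutation `1 5 4 3 2 6` (counted from zero). -/
def v : Equiv.Perm (Fin 6) := Equiv.swap 1 4 * Equiv.swap 2 3

/-- The signs of the columns. -/
def s : Fin 6 → SignType := ![-1, -1, 1, 1, -1, -1]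

/-- The matrix. -/
def M : Matrix (Fin 6) (Fin 6) SignType := spm v s

theorem hs : ∀ j, s j ≠ 0 := by decide

/-! ### A fast check of membership -/

def V (x : ℕ) : ℕ := if x = 0 then 0 else if x = 5 then 5 else 5 - x

def relB (x y p q : ℕ) : Bool :=
  if x == y then (if x == 2 || x == 3 then Nat.blt p q else Nat.blt q p)
  else (if Nat.blt (V x) (V y) then Nat.blt p q else Nat.blt q p)

def any6 (f : ℕ → Bool) : Bool := f 0 || f 1 || f 2 || f 3 || f 4 || f 5

theorem any6_iff (f : ℕ → Bool) : any6 f = true ↔ ∃ x : Fin 6, f x = true := by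
  unfold any6
  rw [Fin.exists_fin_succ, Fin.exists_fin_succ, Fin.exists_fin_succ, Fin.exists_fin_succ,
    Fin.exists_fin_succ, Fin.exists_fin_succ]
  simp only [Bool.or_eq_true, IsEmpty.exists_iff, or_false]
  simp only [Fin.val_zero, Fin.val_succ, zero_add, Nat.reduceAdd]
  tauto

theorem rel_iff (x y : Fin 6) (p q : ℕ) :
    Pool.Agent.Lib.MP_2f3d14_co.Rel v s x y p q ↔ relB x y p q = true := by
  have h1 : ∀ x : Fin 6, s x = 1 ↔ ((x : ℕ) == 2 || (x : ℕ) == 3) = true := by decide +kernel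
  have h2 : ∀ x : Fin 6, s x = -1 ↔ ¬ ((x : ℕ) == 2 || (x : ℕ) == 3) = true := by decide +kernel
  have h3 : ∀ x y : Fin 6, v x < v y ↔ Nat.blt (V x) (V y) = true := by decide +kernel
  have h4 : ∀ x y : Fin 6, x ≠ y → (v y < v x ↔ ¬ Nat.blt (V x) (V y) = true) := by
    decide +kernel
  have hblt : ∀ a b : ℕ, Nat.blt a b = true ↔ a < b := fun a b => by
    rw [Nat.blt_eq]
  unfold Pool.Agent.Lib.MP_2f3d14_co.Rel relB
  by_cases hxy : x = y
  · subst hxy
    simp only [beq_self_eq_true, if_true, true_and, lt_irrefl, false_and, or_false]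
    rw [h1, h2]
    by_cases h5 : ((x : ℕ) == 2 || (x : ℕ) == 3) = true
    · rw [if_pos h5, hblt]; tauto
    · rw [if_neg h5, hblt]; tauto
  · have hne : ¬ ((x : ℕ) == (y : ℕ)) = true := by
      rw [beq_iff_eq]; exact fun h => hxy (Fin.ext h)
    rw [if_neg hne, h3 x y, h4 x y hxy]
    by_cases h5 : Nat.blt (V x) (V y) = true
    · rw [if_pos h5]
      simp only [hxy, false_and, false_or, h5, true_and, not_true_eq_false, or_false]
      exact (hblt p q).symm
    · rw [if_neg h5]
      simp only [hxy, false_and, false_or, h5, true_and, not_false_eq_true, false_and]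
      simp

def chk4 (p0 p1 p2 p3 : ℕ) : Bool :=
  any6 fun x0 => any6 fun x1 => (Nat.ble x0 x1 && relB x0 x1 p0 p1) &&
    any6 fun x2 => (Nat.ble x1 x2 && (relB x0 x2 p0 p2 && relB x1 x2 p1 p2)) &&
    any6 fun x3 => (Nat.ble x2 x3 && (relB x0 x3 p0 p3 && (relB x1 x3 p1 p3 && relB x2 x3 p2 p3)))

def chk5 (p0 p1 p2 p3 p4 : ℕ) : Bool :=
  any6 fun x0 => any6 fun x1 => (Nat.ble x0 x1 && relB x0 x1 p0 p1) &&
    any6 fun x2 => (Nat.ble x1 x2 && (relB x0 x2 p0 p2 && relB x1 x2 p1 p2)) &&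
    any6 fun x3 => (Nat.ble x2 x3 && (relB x0 x3 p0 p3 && (relB x1 x3 p1 p3 && relB x2 x3 p2 p3))) &&
    any6 fun x4 => (Nat.ble x3 x4 && (relB x0 x4 p0 p4 && (relB x1 x4 p1 p4 && (relB x2 x4 p2 p4 &&
      relB x3 x4 p3 p4))))

theorem chk4_iff (π : Equiv.Perm (Fin 4)) :
    InGrid M π ↔ chk4 (π 0) (π 1) (π 2) (π 3) = true := by
  constructor
  · intro h
    obtain ⟨f, hf, h⟩ := inGrid_forward hs h
    unfold chk4
    simp only [any6_iff, Bool.and_eq_true, Nat.ble_eq, ← rel_iff]
    exact ⟨f 0, f 1, ⟨hf (by decide), h 0 1 (by decide)⟩, f 2,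
      ⟨hf (show (1 : Fin 4) ≤ 2 by decide), h 0 2 (by decide), h 1 2 (by decide)⟩, f 3,
      hf (show (2 : Fin 4) ≤ 3 by decide), h 0 3 (by decide), h 1 3 (by decide),
      h 2 3 (by decide)⟩
  · intro h
    unfold chk4 at h
    simp only [any6_iff, Bool.and_eq_true, Nat.ble_eq, ← rel_iff] at h
    obtain ⟨x0, x1, ⟨a1, a2⟩, x2, ⟨b1, b2, b3⟩, x3, c1, c2, c3, c4⟩ := h
    refine inGrid_backward hs ![x0, x1, x2, x3] ?_ ?_
    · apply monotone_of_succ
      intro j k hjk
      fin_cases j <;> fin_cases k <;> simp at hjk ⊢ <;> assumption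
    · intro k l hkl
      fin_cases k <;> fin_cases l <;> first | (exact absurd hkl (by decide)) | assumption

theorem chk5_iff (π : Equiv.Perm (Fin 5)) :
    InGrid M π ↔ chk5 (π 0) (π 1) (π 2) (π 3) (π 4) = true := by
  constructor
  · intro h
    obtain ⟨f, hf, h⟩ := inGrid_forward hs h
    unfold chk5
    simp only [any6_iff, Bool.and_eq_true, Nat.ble_eq, ← rel_iff]
    exact ⟨f 0, f 1, ⟨hf (by decide), h 0 1 (by decide)⟩, f 2,
      ⟨hf (show (1 : Fin 5) ≤ 2 by decide), h 0 2 (by decide), h 1 2 (by decide)⟩, f 3,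
      ⟨hf (show (2 : Fin 5) ≤ 3 by decide), h 0 3 (by decide), h 1 3 (by decide),
      h 2 3 (by decide)⟩, f 4, hf (show (3 : Fin 5) ≤ 4 by decide), h 0 4 (by decide),
      h 1 4 (by decide), h 2 4 (by decide), h 3 4 (by decide)⟩
  · intro h
    unfold chk5 at h
    simp only [any6_iff, Bool.and_eq_true, Nat.ble_eq, ← rel_iff] at h
    obtain ⟨x0, x1, ⟨a1, a2⟩, x2, ⟨b1, b2, b3⟩, x3, ⟨c1, c2, c3, c4⟩, x4, d1, d2, d3, d4, d5⟩ := h
    refine inGrid_backward hs ![x0, x1, x2, x3, x4] ?_ ?_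
    · apply monotone_of_succ
      intro j k hjk
      fin_cases j <;> fin_cases k <;> simp at hjk ⊢ <;> assumption
    · intro k l hkl
      fin_cases k <;> fin_cases l <;> first | (exact absurd hkl (by decide)) | assumption

/-! ### The descent sets -/

def Js4 : List (Finset ℕ) :=
  [∅, {1}, {1}, {1}, {1, 2}, {1, 2}, {1, 2, 3}, {1, 3}, {1, 3}, {2}, {2}, {2}, {2}, {2, 3}, {2, 3},
   {3}, {3}, {3}]

def Js5 : List (Finset ℕ) :=
  [∅, {1}, {1}, {1}, {1, 2}, {1, 2}, {1, 2}, {1, 2, 3}, {1, 2, 3}, {1, 2, 3, 4}, {1, 2, 4},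
   {1, 2, 4}, {1, 3}, {1, 3}, {1, 3}, {1, 3}, {1, 3, 4}, {1, 3, 4}, {1, 4}, {1, 4}, {1, 4}, {1, 4},
   {2}, {2}, {2}, {2}, {2, 3}, {2, 3}, {2, 3}, {2, 3, 4}, {2, 3, 4}, {2, 4}, {2, 4}, {2, 4}, {2, 4},
   {3}, {3}, {3}, {3}, {3, 4}, {3, 4}, {3, 4}, {4}, {4}, {4}]

set_option maxRecDepth 100000

theorem ms4 : ((univ : Finset (Equiv.Perm (Fin 4))).filter
    (fun π => chk4 (π 0) (π 1) (π 2) (π 3) = true)).val.map desSet = (Js4 : Multiset (Finset ℕ)) := by
  decide +kernel

theorem ms5 : ((univ : Finset (Equiv.Perm (Fin 5))).filter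
    (fun π => chk5 (π 0) (π 1) (π 2) (π 3) (π 4) = true)).val.map desSet =
      (Js5 : Multiset (Finset ℕ)) := by
  decide +kernel

theorem Q4 : Q (gridClass M 4) = (Js4.map (fund 4)).sum := by
  have h1 : gridClass M 4 = (univ : Finset (Equiv.Perm (Fin 4))).filter
    (fun π => chk4 (π 0) (π 1) (π 2) (π 3) = true) := by
    ext π
    rw [mem_gridClass, Finset.mem_filter, chk4_iff]
    simp
  rw [h1, Q, Finset.sum]
  show (Multiset.map (fund 4 ∘ desSet) _).sum = _
  rw [← Multiset.map_map (fund 4) desSet, ms4, Multiset.map_coe, Multiset.sum_coe]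

theorem Q5 : Q (gridClass M 5) = (Js5.map (fund 5)).sum := by
  have h1 : gridClass M 5 = (univ : Finset (Equiv.Perm (Fin 5))).filter
    (fun π => chk5 (π 0) (π 1) (π 2) (π 3) (π 4) = true) := by
    ext π
    rw [mem_gridClass, Finset.mem_filter, chk5_iff]
    simp
  rw [h1, Q, Finset.sum]
  show (Multiset.map (fund 5 ∘ desSet) _).sum = _
  rw [← Multiset.map_map (fund 5) desSet, ms5, Multiset.map_coe, Multiset.sum_coe]

/-! ### Symmetry for `n = 5` -/

/-- all compositions of `n` (for `n` at most the first argument) -/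
def comps : ℕ → ℕ → List (List ℕ)
  | _, 0 => [[]]
  | 0, _ + 1 => []
  | f + 1, n + 1 => (List.range (n + 1)).flatMap fun k => (comps f (n - k)).map fun l => (k + 1) :: l

theorem mem_comps (c : List ℕ) : ∀ f n, (∀ x ∈ c, 0 < x) → c.sum = n → n ≤ f → c ∈ comps f n := by
  induction c with
  | nil =>
    intro f n _ h2 _
    simp only [List.sum_nil] at h2
    subst h2
    cases f <;> simp [comps]
  | cons a c ih =>
    intro f n h1 h2 h3
    have ha := h1 a List.mem_cons_self
    rw [List.sum_cons] at h2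
    obtain ⟨n, rfl⟩ : ∃ n', n = n' + 1 := ⟨n - 1, by omega⟩
    obtain ⟨f, rfl⟩ : ∃ f', f = f' + 1 := ⟨f - 1, by omega⟩
    rw [comps, List.mem_flatMap]
    refine ⟨a - 1, List.mem_range.2 (by omega), List.mem_map.2 ⟨c, ?_, ?_⟩⟩
    · exact ih f (n - (a - 1)) (fun x hx => h1 x (List.mem_cons_of_mem _ hx)) (by omega) (by omega)
    · rw [Nat.sub_add_cancel ha]

theorem perm_check : ∀ c ∈ comps 5 5, ∀ c' ∈ comps 5 5, c.Perm c' →
    Js5.countP (fun J => ∀ p ∈ J, p ∈ psumsList c) =
      Js5.countP (fun J => ∀ p ∈ J, p ∈ psumsList c') := by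
  decide +kernel

theorem symm5 : IsSymm (Js5.map (fund 5)).sum := by
  apply isSymm_of
  · decide +kernel
  · intro c c' h1 h2 h3
    exact perm_check c (mem_comps c 5 5 h1 h2 le_rfl) c'
      (mem_comps c' 5 5 (fun x hx => h1 _ (h3.symm.subset hx)) (by rw [← h3.sum_eq, h2]) le_rfl) h3

/-! ### The expansion in Schur functions for `n = 5` -/

def e5 : Fin 5 → ℕ × ℕ := ![(0, 0), (0, 1), (0, 2), (0, 3), (0, 4)]
def e41 : Fin 5 → ℕ × ℕ := ![(0, 0), (0, 1), (0, 2), (0, 3), (1, 0)]
def e32 : Fin 5 → ℕ × ℕ := ![(0, 0), (0, 1), (0, 2), (1, 0), (1, 1)]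
def e311 : Fin 5 → ℕ × ℕ := ![(0, 0), (0, 1), (0, 2), (1, 0), (2, 0)]
def e2111 : Fin 5 → ℕ × ℕ := ![(0, 0), (0, 1), (1, 0), (2, 0), (3, 0)]
def e11111 : Fin 5 → ℕ × ℕ := ![(0, 0), (1, 0), (2, 0), (3, 0), (4, 0)]

def L5 : List (Finset ℕ) := [∅]
def L41 : List (Finset ℕ) := [{1}, {2}, {3}, {4}]
def L32 : List (Finset ℕ) := [{1, 3}, {1, 4}, {2}, {2, 4}, {3}]
def L311 : List (Finset ℕ) := [{1, 2}, {1, 3}, {1, 4}, {2, 3}, {2, 4}, {3, 4}]
def L2111 : List (Finset ℕ) := [{1, 2, 3}, {1, 2, 4}, {1, 3, 4}, {2, 3, 4}]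
def L11111 : List (Finset ℕ) := [{1, 2, 3, 4}]

def m5 : YoungDiagram := YoungDiagram.ofRowLens [5] (by decide)
def m41 : YoungDiagram := YoungDiagram.ofRowLens [4, 1] (by decide)
def m32 : YoungDiagram := YoungDiagram.ofRowLens [3, 2] (by decide)
def m311 : YoungDiagram := YoungDiagram.ofRowLens [3, 1, 1] (by decide)
def m2111 : YoungDiagram := YoungDiagram.ofRowLens [2, 1, 1, 1] (by decide)
def m11111 : YoungDiagram := YoungDiagram.ofRowLens [1, 1, 1, 1, 1] (by decide)

theorem schur_list {μ : YoungDiagram} {e : Fin 5 → ℕ × ℕ} {L : List (Finset ℕ)}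
    (he : Function.Injective e) (himg : univ.image e = μ.cells) [DecidablePred (Std e)]
    (hL : ((univ : Finset (Equiv.Perm (Fin 5))).filter (Std e)).val.map (desTab e) =
      (L : Multiset (Finset ℕ))) : schurFn μ = (L.map (fund 5)).sum := by
  have h0 : schurFn μ = ∑ σ ∈ univ.filter (Std e), fund 5 (desTab e σ) := by
    rw [schur_eq μ e he himg]
    congr!
  have h1 : (∑ σ ∈ univ.filter (Std e), fund 5 (desTab e σ)) =
      (Multiset.map (fund 5 ∘ desTab e) (univ.filter (Std e)).val).sum := rfl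
  rw [h0, h1, ← Multiset.map_map, hL, Multiset.map_coe, Multiset.sum_coe]

instance (e : Fin 5 → ℕ × ℕ) : DecidablePred (Std e) := fun σ => by
  unfold Std; infer_instance

theorem s5 : schurFn m5 = (L5.map (fund 5)).sum :=
  schur_list (e := e5) (by decide +kernel) (by decide +kernel) (by decide +kernel)

theorem s41 : schurFn m41 = (L41.map (fund 5)).sum :=
  schur_list (e := e41) (by decide +kernel) (by decide +kernel) (by decide +kernel)

theorem s32 : schurFn m32 = (L32.map (fund 5)).sum :=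
  schur_list (e := e32) (by decide +kernel) (by decide +kernel) (by decide +kernel)

theorem s311 : schurFn m311 = (L311.map (fund 5)).sum :=
  schur_list (e := e311) (by decide +kernel) (by decide +kernel) (by decide +kernel)

theorem s2111 : schurFn m2111 = (L2111.map (fund 5)).sum :=
  schur_list (e := e2111) (by decide +kernel) (by decide +kernel) (by decide +kernel)

theorem s11111 : schurFn m11111 = (L11111.map (fund 5)).sum :=
  schur_list (e := e11111) (by decide +kernel) (by decide +kernel) (by decide +kernel)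

/-- The multiset of descent sets of `G_5` splits into those of standard Young tableaux. -/
theorem split5 : (Js5 : Multiset (Finset ℕ)) =
    ((L5 ++ (L41 ++ L41 ++ L41) ++ L32 ++ (L311 ++ L311 ++ L311) ++ (L2111 ++ L2111) ++ L11111 :
      List (Finset ℕ)) : Multiset (Finset ℕ)) := by
  decide +kernel

theorem expand5 : (Js5.map (fund 5)).sum = 1 • schurFn m5 + 3 • schurFn m41 + 1 • schurFn m32 +
    3 • schurFn m311 + 2 • schurFn m2111 + 1 • schurFn m11111 := by
  have h1 : (Js5.map (fund 5)).sum = ((Js5 : Multiset (Finset ℕ)).map (fund 5)).sum := by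
    rw [Multiset.map_coe, Multiset.sum_coe]
  rw [h1, split5, Multiset.map_coe, Multiset.sum_coe]
  simp only [List.map_append, List.sum_append]
  rw [← s5, ← s41, ← s32, ← s311, ← s2111, ← s11111]
  simp only [nsmul_eq_mul, Nat.cast_one, Nat.cast_ofNat]
  ring

theorem schurPositive5 : SchurPositive (Q (gridClass M 5)) := by
  rw [Q5]
  refine ⟨symm5, Finsupp.single m5 1 + Finsupp.single m41 3 + Finsupp.single m32 1 +
    Finsupp.single m311 3 + Finsupp.single m2111 2 + Finsupp.single m11111 1, ?_⟩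
  rw [expand5]
  have h0 : ∀ μ : YoungDiagram, (fun (μ : YoungDiagram) (k : ℕ) => k • schurFn μ) μ 0 = 0 :=
    fun μ => zero_smul _ _
  rw [Finsupp.sum_add_index', Finsupp.sum_add_index', Finsupp.sum_add_index',
    Finsupp.sum_add_index', Finsupp.sum_add_index']
  · rw [Finsupp.sum_single_index (h0 _), Finsupp.sum_single_index (h0 _),
      Finsupp.sum_single_index (h0 _), Finsupp.sum_single_index (h0 _),
      Finsupp.sum_single_index (h0 _), Finsupp.sum_single_index (h0 _)]
  all_goals first | exact h0 | (intro μ a b; exact add_smul _ _ _)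

/-! ### No symmetry for `n = 4` -/

/-- exponent vector of `x_0 x_1 x_2^2` -/
noncomputable def ma : ℕ →₀ ℕ := Finsupp.single 0 1 + Finsupp.single 1 1 + Finsupp.single 2 2

/-- exponent vector of `x_0 x_2 x_1^2` -/
noncomputable def mb : ℕ →₀ ℕ := Finsupp.single 0 1 + Finsupp.single 2 1 + Finsupp.single 1 2

theorem map_ma : ma.mapDomain (Equiv.swap 1 2) = mb := by
  unfold ma mb
  rw [Finsupp.mapDomain_add, Finsupp.mapDomain_add, Finsupp.mapDomain_single,
    Finsupp.mapDomain_single, Finsupp.mapDomain_single]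
  rw [Equiv.swap_apply_left, Equiv.swap_apply_right,
    Equiv.swap_apply_of_ne_of_ne (by decide) (by decide)]

theorem psum_ma (p : ℕ) : (∃ v, psum ma v = p) ↔ p ∈ psumsList [1, 1, 2] := by
  have h3 : ∀ v, psum ma (v + 3) = 4 := by
    intro v
    induction v with
    | zero => simp [psum, Finset.sum_range_succ, ma, Finsupp.single_apply]
    | succ v ih =>
      rw [psum, show v + 1 + 3 = (v + 3) + 1 by ring, Finset.sum_range_succ]
      rw [psum] at ih
      rw [ih]
      simp [ma]
  have e : psumsList [1, 1, 2] = [0, 1, 2, 4] := by decide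
  rw [e]
  constructor
  · rintro ⟨v, rfl⟩
    rcases v with _ | _ | _ | v
    · simp [psum]
    · simp [psum, Finset.sum_range_succ, ma, Finsupp.single_apply]
    · simp [psum, Finset.sum_range_succ, ma, Finsupp.single_apply]
    · rw [h3]; simp
  · intro h
    simp only [List.mem_cons, List.not_mem_nil, or_false] at h
    rcases h with rfl | rfl | rfl | rfl
    · exact ⟨0, by simp [psum]⟩
    · exact ⟨1, by simp [psum, ma, Finsupp.single_apply]⟩
    · exact ⟨2, by simp [psum, Finset.sum_range_succ, ma, Finsupp.single_apply]⟩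
    · exact ⟨3, h3 0⟩

theorem psum_mb (p : ℕ) : (∃ v, psum mb v = p) ↔ p ∈ psumsList [1, 2, 1] := by
  have h3 : ∀ v, psum mb (v + 3) = 4 := by
    intro v
    induction v with
    | zero => simp [psum, Finset.sum_range_succ, mb, Finsupp.single_apply]
    | succ v ih =>
      rw [psum, show v + 1 + 3 = (v + 3) + 1 by ring, Finset.sum_range_succ]
      rw [psum] at ih
      rw [ih]
      simp [mb]
  have e : psumsList [1, 2, 1] = [0, 1, 3, 4] := by decide
  rw [e]
  constructor
  · rintro ⟨v, rfl⟩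
    rcases v with _ | _ | _ | v
    · simp [psum]
    · simp [psum, Finset.sum_range_succ, mb, Finsupp.single_apply]
    · simp [psum, Finset.sum_range_succ, mb, Finsupp.single_apply]
    · rw [h3]; simp
  · intro h
    simp only [List.mem_cons, List.not_mem_nil, or_false] at h
    rcases h with rfl | rfl | rfl | rfl
    · exact ⟨0, by simp [psum]⟩
    · exact ⟨1, by simp [psum, mb, Finsupp.single_apply]⟩
    · exact ⟨2, by simp [psum, Finset.sum_range_succ, mb, Finsupp.single_apply]⟩
    · exact ⟨3, h3 0⟩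

theorem not_symm4 : ¬ IsSymm (Q (gridClass M 4)) := by
  intro h
  have h1 := h (Equiv.swap 1 2) ma
  rw [map_ma, Q4] at h1
  have h2 : (Js4.map (fund 4)).sum mb = (Js4.map (fund 4)).sum ma := h1
  rw [sum_coeff Js4 (by decide +kernel) ma [1, 1, 2] psum_ma,
    sum_coeff Js4 (by decide +kernel) mb [1, 2, 1] psum_mb] at h2
  have da : ma.degree = 4 := by
    unfold ma; rw [map_add, map_add]; simp only [Finsupp.degree_single]
  have db : mb.degree = 4 := by
    unfold mb; rw [map_add, map_add]; simp only [Finsupp.degree_single]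
  rw [if_pos da, if_pos db] at h2
  revert h2
  decide +kernel

/-- **Counterexample.** There is a `6 × 6` matrix whose grid class `G` has `Q(G_5)` Schur-positive
although `Q(G_4)` is not even symmetric. -/
theorem result : ∃ M : Matrix (Fin 6) (Fin 6) SignType,
    SchurPositive (Q (gridClass M 5)) ∧ ¬ IsSymm (Q (gridClass M 4)) :=
  ⟨M, schurPositive5, not_symm4⟩

end Pool.Agent.Results.MP_2f3d14_co.Counterexample
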